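import Pool.Agent.Helper58.SU.StQ

/-!
# Project SU (MP_b454d1_nt), module FU1: circle method with short windows of fixed length
-/

set_option autoImplicit false

namespace Pool.Agent.Helper75.SU

open Finset ArithmeticFunction MeasureTheory
open Pool.Agent.Helper48.BK (ex th Sx Apx)
open Pool.Agent.Helper2.MR (ch)
open Pool.Agent.Helper23.GK
open Pool.Agent.Helper58.SU

private theorem fu1_pow (c L : ℝ) (a b : ℕ) (h1 : 1 ≤ L) (hc : c ≤ L) (hab : a + 1 ≤ b) :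
    c * L ^ a ≤ L ^ b := by
  calc c * L ^ a ≤ L * L ^ a := by gcongr
    _ = L ^ (a + 1) := by ring
    _ ≤ L ^ b := pow_le_pow_right₀ h1 hab

private theorem fu1_markov2 (s : Finset ℕ) (f : ℕ → ℝ) (T : ℝ) (hT : 0 < T) :
    ((s.filter (fun N => T < |f N|)).card : ℝ) * T ^ 2 ≤ ∑ N ∈ s, f N ^ 2 := by
  calc ((s.filter (fun N => T < |f N|)).card : ℝ) * T ^ 2
      = ∑ N ∈ s.filter (fun N => T < |f N|), T ^ 2 := by
        simp [Finset.sum_const, nsmul_eq_mul]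
    _ ≤ ∑ N ∈ s.filter (fun N => T < |f N|), f N ^ 2 := by
        apply Finset.sum_le_sum
        intro N hN
        have h := (Finset.mem_filter.mp hN).2
        rw [← sq_abs (f N)]
        gcongr
    _ ≤ ∑ N ∈ s, f N ^ 2 :=
        Finset.sum_le_sum_of_subset_of_nonneg (Finset.filter_subset _ _)
          (fun _ _ _ => sq_nonneg _)

private theorem fu1_markov1 (s : Finset ℕ) (f : ℕ → ℝ) (T : ℝ) :
    ((s.filter (fun N => T < |f N|)).card : ℝ) * T ≤ ∑ N ∈ s, |f N| := by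
  calc ((s.filter (fun N => T < |f N|)).card : ℝ) * T
      = ∑ N ∈ s.filter (fun N => T < |f N|), T := by
        simp [Finset.sum_const, nsmul_eq_mul]
    _ ≤ ∑ N ∈ s.filter (fun N => T < |f N|), |f N| := by
        apply Finset.sum_le_sum
        intro N hN
        exact (Finset.mem_filter.mp hN).2.le
    _ ≤ ∑ N ∈ s, |f N| :=
        Finset.sum_le_sum_of_subset_of_nonneg (Finset.filter_subset _ _)
          (fun _ _ _ => abs_nonneg _)

private theorem fu1_th_nonneg (n : ℕ) : 0 ≤ th n := by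
  unfold th
  split_ifs with h
  · exact Real.log_nonneg (by exact_mod_cast h.one_lt.le)
  · exact le_refl _

private theorem fu1_th_le (n Y : ℕ) (hn : n ≤ Y) (hY : 1 ≤ Y) : th n ≤ Real.log Y := by
  unfold th
  split_ifs with h
  · apply Real.log_le_log
    · exact_mod_cast h.pos
    · exact_mod_cast hn
  · exact Real.log_nonneg (by exact_mod_cast hY)

/-- start of the window of the `i`-th block -/
private noncomputable def yi (c : ℝ) (X H i : ℕ) : ℕ := ⌊c * √((X + H * i : ℕ) : ℝ)⌋₊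

private theorem fu1_yB (c : ℝ) (X H N : ℕ) : yB c X H N = yi c X H ((N - X - 1) / H) := rfl

/-- part 1: the blocks -/
private theorem fu1_p1 (hCnvs : StCnvs) (c : ℝ) (f : ℕ → ℝ) (X H h : ℕ) (D M : ℝ)
    (hH1 : 1 ≤ H) (hHX : H ≤ X) (hy : ∀ i ≤ X / H, yi c X H i + h + 1 ≤ H)
    (hf : ∀ i ≤ X / H, ∀ α, ‖SI f (yi c X H i) h α‖ ≤ D) (hM : Real.log (3 * X) ≤ M) :
    ∑ N ∈ Ioc X (2 * X),
      (∑ n ∈ Ioc (yB c X H N) (yB c X H N + h), f n * th (N - n)) ^ 2 ≤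
      D ^ 2 * (4 * X * M ^ 2) := by
  have hmaps : ∀ N ∈ Ioc X (2 * X), (N - X - 1) / H ∈ range (X / H + 1) := by
    intro N hN
    have hN' := Finset.mem_Ioc.mp hN
    rw [Finset.mem_range, Nat.lt_succ_iff]
    exact Nat.div_le_div_right (by omega)
  have hXX : X / H * H ≤ X := Nat.div_mul_le_self X H
  rw [← Finset.sum_fiberwise_of_maps_to hmaps]
  have hblock : ∀ i ∈ range (X / H + 1),
      ∑ N ∈ (Ioc X (2 * X)).filter (fun N => (N - X - 1) / H = i),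
        (∑ n ∈ Ioc (yB c X H N) (yB c X H N + h), f n * th (N - n)) ^ 2 ≤
      D ^ 2 * (2 * H * M ^ 2) := by
    intro i hi
    have hi' : i ≤ X / H := Nat.lt_succ_iff.mp (Finset.mem_range.mp hi)
    have hiX : H * i ≤ X := by
      calc H * i ≤ H * (X / H) := Nat.mul_le_mul_left _ hi'
        _ = X / H * H := Nat.mul_comm _ _
        _ ≤ X := hXX
    have hyi := hy i hi'
    set Z := X + H * i with hZ
    set y := yi c X H i with hyd
    have h1 := hCnvs f th y h Z H D (hf i hi')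
    have h2 : ∑ N ∈ (Ioc X (2 * X)).filter (fun N => (N - X - 1) / H = i),
        (∑ n ∈ Ioc (yB c X H N) (yB c X H N + h), f n * th (N - n)) ^ 2 ≤
        ∑ N ∈ Ioc Z (Z + H), (∑ n ∈ (Ioc y (y + h)).filter (fun n => n < N),
          f n * th (N - n)) ^ 2 := by
      calc ∑ N ∈ (Ioc X (2 * X)).filter (fun N => (N - X - 1) / H = i),
            (∑ n ∈ Ioc (yB c X H N) (yB c X H N + h), f n * th (N - n)) ^ 2
          = ∑ N ∈ (Ioc X (2 * X)).filter (fun N => (N - X - 1) / H = i),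
            (∑ n ∈ (Ioc y (y + h)).filter (fun n => n < N), f n * th (N - n)) ^ 2 := by
            apply Finset.sum_congr rfl
            intro N hN
            obtain ⟨hN1, hN2⟩ := Finset.mem_filter.mp hN
            have hN' := Finset.mem_Ioc.mp hN1
            rw [fu1_yB, hN2, ← hyd, Finset.filter_true_of_mem]
            intro n hn
            have hn' := Finset.mem_Ioc.mp hn
            omega
        _ ≤ _ := by
            apply Finset.sum_le_sum_of_subset_of_nonneg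
            · intro N hN
              obtain ⟨hN1, hN2⟩ := Finset.mem_filter.mp hN
              have hN' := Finset.mem_Ioc.mp hN1
              have h3 := Nat.div_mul_le_self (N - X - 1) H
              have h4 := Nat.lt_div_mul_add (a := N - X - 1) (b := H) (by omega)
              rw [hN2, Nat.mul_comm] at h3 h4
              rw [Finset.mem_Ioc, hZ]
              omega
            · intro _ _ _
              exact sq_nonneg _
    refine h2.trans (h1.trans ?_)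
    apply mul_le_mul_of_nonneg_left _ (sq_nonneg D)
    have hM0 : 0 ≤ M := by
      refine le_trans (Real.log_nonneg ?_) hM
      have : (1 : ℝ) ≤ X := by exact_mod_cast (by omega : 1 ≤ X)
      linarith
    calc ∑ n ∈ Ioc (Z - (y + h)) (Z + H), th n ^ 2
        ≤ ∑ n ∈ Ioc (Z - (y + h)) (Z + H), M ^ 2 := by
          apply Finset.sum_le_sum
          intro n hn
          have hn' := Finset.mem_Ioc.mp hn
          have h3 := fu1_th_le n (3 * X) (by omega) (by omega)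
          have h4 := fu1_th_nonneg n
          push_cast at h3
          exact pow_le_pow_left₀ h4 (h3.trans hM) 2
      _ ≤ 2 * H * M ^ 2 := by
          rw [Finset.sum_const, Nat.card_Ioc, nsmul_eq_mul]
          apply mul_le_mul_of_nonneg_right _ (sq_nonneg M)
          have h5 : Z + H - (Z - (y + h)) ≤ 2 * H := by omega
          calc ((Z + H - (Z - (y + h)) : ℕ) : ℝ) ≤ ((2 * H : ℕ) : ℝ) := by exact_mod_cast h5
            _ = 2 * H := by push_cast; ring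
  refine (Finset.sum_le_sum hblock).trans ?_
  rw [Finset.sum_const, Finset.card_range, nsmul_eq_mul]
  have h6 : ((X / H + 1 : ℕ) : ℝ) * (2 * H) ≤ 4 * X := by
    have h7 : (X / H + 1) * (2 * H) ≤ 4 * X := by
      calc (X / H + 1) * (2 * H) = 2 * (X / H * H) + 2 * H := by ring
        _ ≤ 2 * X + 2 * X := by omega
        _ = 4 * X := by ring
    calc ((X / H + 1 : ℕ) : ℝ) * (2 * H) = (((X / H + 1) * (2 * H) : ℕ) : ℝ) := by push_cast; ring
      _ ≤ ((4 * X : ℕ) : ℝ) := by exact_mod_cast h7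
      _ = 4 * X := by push_cast; ring
  calc ((X / H + 1 : ℕ) : ℝ) * (D ^ 2 * (2 * H * M ^ 2))
      = D ^ 2 * M ^ 2 * (((X / H + 1 : ℕ) : ℝ) * (2 * H)) := by ring
    _ ≤ D ^ 2 * M ^ 2 * (4 * X) := by gcongr
    _ = D ^ 2 * (4 * X * M ^ 2) := by ring

/-- part 2: covering the starting points by four dyadic intervals -/
private theorem fu1_cover (F : ℕ → ℝ) (hF : ∀ n, 0 ≤ F n) (X : ℕ) (hX : 16 ≤ X) (E : ℝ)
    (hE : ∀ Y, X ≤ 4 * Y → Y ≤ X → ∑ M ∈ Ioc Y (2 * Y), F M ≤ E) :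
    ∑ s ∈ Icc (X / 2) (2 * X), F s ≤ 4 * E := by
  have hsub : Icc (X / 2) (2 * X) ⊆
      ((Ioc (X / 2 - 1) (2 * (X / 2 - 1)) ∪ Ioc (X / 2) (2 * (X / 2))) ∪
        Ioc (X / 2 + 1) (2 * (X / 2 + 1))) ∪ Ioc X (2 * X) := by
    intro M hM
    have hM' := Finset.mem_Icc.mp hM
    simp only [Finset.mem_union, Finset.mem_Ioc]
    omega
  have h3 : ∀ s t : Finset ℕ, ∑ M ∈ s ∪ t, F M ≤ ∑ M ∈ s, F M + ∑ M ∈ t, F M := by
    intro s t
    rw [← Finset.sum_union_inter]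
    have : 0 ≤ ∑ M ∈ s ∩ t, F M := Finset.sum_nonneg (fun _ _ => hF _)
    linarith
  refine (Finset.sum_le_sum_of_subset_of_nonneg hsub (fun _ _ _ => hF _)).trans ?_
  have a1 := h3 ((Ioc (X / 2 - 1) (2 * (X / 2 - 1)) ∪ Ioc (X / 2) (2 * (X / 2))) ∪
        Ioc (X / 2 + 1) (2 * (X / 2 + 1))) (Ioc X (2 * X))
  have a2 := h3 (Ioc (X / 2 - 1) (2 * (X / 2 - 1)) ∪ Ioc (X / 2) (2 * (X / 2)))
    (Ioc (X / 2 + 1) (2 * (X / 2 + 1)))
  have a3 := h3 (Ioc (X / 2 - 1) (2 * (X / 2 - 1))) (Ioc (X / 2) (2 * (X / 2)))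
  have b1 := hE (X / 2 - 1) (by omega) (by omega)
  have b2 := hE (X / 2) (by omega) (by omega)
  have b3 := hE (X / 2 + 1) (by omega) (by omega)
  have b4 := hE X (by omega) le_rfl
  linarith

/-- part 2: Cauchy-Schwarz over the pairs `(q, u)` -/
private theorem fu1_p2 (X Q : ℕ) (G : ℕ → ℕ → ℕ → ℝ) (E : ℝ)
    (hE : ∀ q u : ℕ, 1 ≤ q → q ≤ Q → ∑ N ∈ Ioc X (2 * X), G N q u ^ 2 ≤ E) (hE0 : 0 ≤ E) :
    ∑ N ∈ Ioc X (2 * X), (∑ q ∈ Icc 1 Q, ∑ u ∈ range q, |G N q u|) ^ 2 ≤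
      (Q : ℝ) ^ 2 * ((Q : ℝ) ^ 2 * E) := by
  have hcard : (((Icc 1 Q).sigma (fun q => range q)).card : ℝ) ≤ (Q : ℝ) ^ 2 := by
    rw [Finset.card_sigma]
    push_cast
    calc ∑ q ∈ Icc 1 Q, ((range q).card : ℝ) ≤ ∑ q ∈ Icc 1 Q, (Q : ℝ) := by
          apply Finset.sum_le_sum
          intro q hq
          have := (Finset.mem_Icc.mp hq).2
          rw [Finset.card_range]
          exact_mod_cast this
      _ = (Q : ℝ) ^ 2 := by
          simp [Finset.sum_const, nsmul_eq_mul]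
          ring
  have h1 : ∀ N, (∑ q ∈ Icc 1 Q, ∑ u ∈ range q, |G N q u|) ^ 2 ≤
      (Q : ℝ) ^ 2 * ∑ z ∈ (Icc 1 Q).sigma (fun q => range q), G N z.1 z.2 ^ 2 := by
    intro N
    have h2 : ∑ q ∈ Icc 1 Q, ∑ u ∈ range q, |G N q u| =
        ∑ z ∈ (Icc 1 Q).sigma (fun q => range q), |G N z.1 z.2| := by
      rw [Finset.sum_sigma]
    rw [h2]
    have h3 := sq_sum_le_card_mul_sum_sq (s := (Icc 1 Q).sigma (fun q => range q))
      (f := fun z => |G N z.1 z.2|)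
    refine h3.trans ?_
    have h4 : ∑ z ∈ (Icc 1 Q).sigma (fun q => range q), |G N z.1 z.2| ^ 2 =
        ∑ z ∈ (Icc 1 Q).sigma (fun q => range q), G N z.1 z.2 ^ 2 := by
      apply Finset.sum_congr rfl
      intro z _
      rw [sq_abs]
    rw [h4]
    apply mul_le_mul_of_nonneg_right hcard
    exact Finset.sum_nonneg (fun _ _ => sq_nonneg _)
  calc ∑ N ∈ Ioc X (2 * X), (∑ q ∈ Icc 1 Q, ∑ u ∈ range q, |G N q u|) ^ 2
      ≤ ∑ N ∈ Ioc X (2 * X),
        (Q : ℝ) ^ 2 * ∑ z ∈ (Icc 1 Q).sigma (fun q => range q), G N z.1 z.2 ^ 2 :=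
        Finset.sum_le_sum (fun N _ => h1 N)
    _ = (Q : ℝ) ^ 2 * ∑ z ∈ (Icc 1 Q).sigma (fun q => range q),
          ∑ N ∈ Ioc X (2 * X), G N z.1 z.2 ^ 2 := by
        rw [← Finset.mul_sum, Finset.sum_comm]
    _ ≤ (Q : ℝ) ^ 2 * ∑ z ∈ (Icc 1 Q).sigma (fun q => range q), E := by
        gcongr with z hz
        have hz' := Finset.mem_sigma.mp hz
        have hq := Finset.mem_Icc.mp hz'.1
        exact hE z.1 z.2 hq.1 hq.2
    _ ≤ (Q : ℝ) ^ 2 * ((Q : ℝ) ^ 2 * E) := by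
        rw [Finset.sum_const, nsmul_eq_mul]
        gcongr

/-- powers of `X` -/
private theorem fu1_ev (K a b : ℝ) (hab : a < b) :
    ∀ᶠ X : ℕ in Filter.atTop, K * (X : ℝ) ^ a ≤ (X : ℝ) ^ b := by
  have h1 : ∀ᶠ X : ℕ in Filter.atTop, K ≤ (X : ℝ) ^ (b - a) :=
    ((tendsto_rpow_atTop (by linarith : 0 < b - a)).comp
      tendsto_natCast_atTop_atTop).eventually_ge_atTop K
  filter_upwards [h1, Filter.eventually_ge_atTop 1] with X hX hX1
  have hX0 : (0 : ℝ) < X := by exact_mod_cast hX1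
  have h2 : 0 ≤ (X : ℝ) ^ a := by positivity
  calc K * (X : ℝ) ^ a ≤ (X : ℝ) ^ (b - a) * (X : ℝ) ^ a := mul_le_mul_of_nonneg_right hX h2
    _ = (X : ℝ) ^ b := by
        rw [← Real.rpow_add hX0]
        congr 1
        ring

/-- facts on the size of the windows for large `X` -/
private theorem fu1_size (c κ : ℝ) (hc : 0 < c) (hκ : 2 / 5 < κ) (hκ2 : κ < 1 / 2) (η η' : ℝ)
    (hη : η < 2 * κ) (hη' : 2 * κ < η') (hη0 : 0 < η) (y₀ : ℕ) :
    ∀ᶠ X : ℕ in Filter.atTop, 16 ≤ X ∧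
      (12 : ℝ) ≤ (X : ℝ) ^ (1 / 2 + κ - dl κ) ∧ (X : ℝ) ^ (1 / 2 + κ - dl κ) + 1 ≤ X ∧
      2 * c * √(X : ℝ) + 2 * (X : ℝ) ^ κ + 2 ≤ (X : ℝ) ^ (1 / 2 + κ - dl κ) ∧
      2 * c * √(X : ℝ) + 2 * (X : ℝ) ^ κ + 2 ≤ X / 4 ∧ 4 * c ≤ √(X : ℝ) ∧
      ∀ Z : ℕ, X ≤ Z → Z ≤ 2 * X → (y₀ ≤ ⌊c * √(Z : ℝ)⌋₊ ∧
        (⌊c * √(Z : ℝ)⌋₊ : ℝ) ≤ 2 * c * √(X : ℝ) ∧
        Real.log X / 3 ≤ Real.log ⌊c * √(Z : ℝ)⌋₊ ∧ Real.log ⌊c * √(Z : ℝ)⌋₊ ≤ Real.log X ∧
        (⌊c * √(Z : ℝ)⌋₊ : ℝ) ^ η ≤ (X : ℝ) ^ κ / 2 ∧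
        2 * (X : ℝ) ^ κ ≤ (⌊c * √(Z : ℝ)⌋₊ : ℝ) ^ η') := by
  have hd : κ - dl κ = κ / 2 + 1 / 5 := by
    unfold dl
    ring
  have hexp : 1 / 2 + κ - dl κ = 7 / 10 + κ / 2 := by
    linarith
  have e1 := Filter.eventually_ge_atTop (α := ℕ) 16
  have e2 := fu1_ev 12 0 (1 / 2 + κ - dl κ) (by rw [hexp]; linarith)
  have e3 := fu1_ev 2 (1 / 2 + κ - dl κ) 1 (by rw [hexp]; linarith)
  have e4 := fu1_ev (3 * (2 * c)) (1 / 2) (1 / 2 + κ - dl κ) (by rw [hexp]; linarith)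
  have e5 := fu1_ev (3 * 2) κ (1 / 2 + κ - dl κ) (by rw [hexp]; linarith)
  have e6 := fu1_ev (3 * 2) 0 (1 / 2 + κ - dl κ) (by rw [hexp]; linarith)
  have e7 := fu1_ev (12 * (2 * c)) (1 / 2) 1 (by norm_num)
  have e8 := fu1_ev (12 * 2) κ 1 (by linarith)
  have e9 := fu1_ev (12 * 2) 0 1 (by norm_num)
  have e10 := fu1_ev (4 * c) 0 (1 / 2) (by norm_num)
  have e11 := fu1_ev (2 / c * (y₀ + 1)) 0 (1 / 2) (by norm_num)
  have e12 := fu1_ev (2 / c) (1 / 3) (1 / 2) (by norm_num)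
  have e13 := fu1_ev (2 * (2 * c) ^ η) (η / 2) κ (by linarith)
  have e14 := fu1_ev (2 / (c / 2) ^ η') κ (η' / 2) (by linarith)
  filter_upwards [e1, e2, e3, e4, e5, e6, e7, e8, e9, e10, e11, e12, e13, e14] with X f1 f2 f3 f4
    f5 f6 f7 f8 f9 f10 f11 f12 f13 f14
  have hX0 : (0 : ℝ) < X := by exact_mod_cast (by omega : 0 < X)
  have hX1 : (1 : ℝ) ≤ X := by exact_mod_cast (by omega : 1 ≤ X)
  rw [Real.rpow_zero, mul_one] at f2 f6 f9 f10 f11
  rw [Real.rpow_one] at f3 f7 f8 f9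
  rw [← Real.sqrt_eq_rpow] at f4 f7 f10 f11 f12
  have hs0 : 0 < √(X : ℝ) := Real.sqrt_pos.mpr hX0
  refine ⟨f1, f2, by linarith, by linarith, by linarith, f10, ?_⟩
  intro Z hZ1 hZ2
  have hZ1' : (X : ℝ) ≤ Z := by exact_mod_cast hZ1
  have hZ2' : (Z : ℝ) ≤ 2 * X := by exact_mod_cast hZ2
  have hsZ1 : √(X : ℝ) ≤ √(Z : ℝ) := Real.sqrt_le_sqrt hZ1'
  have hsZ2 : √(Z : ℝ) ≤ 2 * √(X : ℝ) := by
    rw [Real.sqrt_le_left (by positivity), mul_pow, Real.sq_sqrt hX0.le]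
    linarith
  have hfl1 : (⌊c * √(Z : ℝ)⌋₊ : ℝ) ≤ c * √(Z : ℝ) := Nat.floor_le (by positivity)
  have hfl2 : c * √(Z : ℝ) < ⌊c * √(Z : ℝ)⌋₊ + 1 := Nat.lt_floor_add_one _
  have hcX : 2 * ((y₀ : ℝ) + 1) ≤ c * √(X : ℝ) := by
    have h1 : c * (2 / c * ((y₀ : ℝ) + 1)) ≤ c * √(X : ℝ) := mul_le_mul_of_nonneg_left f11 hc.le
    have h2 : c * (2 / c * ((y₀ : ℝ) + 1)) = 2 * ((y₀ : ℝ) + 1) := by
      field_simp
    linarith
  have hy0 : (0 : ℝ) ≤ y₀ := Nat.cast_nonneg _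
  have hcXZ : c * √(X : ℝ) ≤ c * √(Z : ℝ) := mul_le_mul_of_nonneg_left hsZ1 hc.le
  have hlow : c / 2 * √(X : ℝ) ≤ ⌊c * √(Z : ℝ)⌋₊ := by
    nlinarith
  have hup : (⌊c * √(Z : ℝ)⌋₊ : ℝ) ≤ 2 * c * √(X : ℝ) := by
    refine hfl1.trans ?_
    nlinarith
  have hlow0 : 0 < c / 2 * √(X : ℝ) := by positivity
  have hypos : (0 : ℝ) < ⌊c * √(Z : ℝ)⌋₊ := lt_of_lt_of_le hlow0 hlow
  refine ⟨?_, hup, ?_, ?_, ?_, ?_⟩
  · have : (y₀ : ℝ) ≤ ⌊c * √(Z : ℝ)⌋₊ := by linarith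
    exact_mod_cast this
  · have h1 : (X : ℝ) ^ (1 / 3 : ℝ) ≤ ⌊c * √(Z : ℝ)⌋₊ := by
      refine le_trans ?_ hlow
      have h2 : c / 2 * (2 / c * (X : ℝ) ^ (1 / 3 : ℝ)) ≤ c / 2 * √(X : ℝ) :=
        mul_le_mul_of_nonneg_left f12 (by positivity)
      have h3 : c / 2 * (2 / c * (X : ℝ) ^ (1 / 3 : ℝ)) = (X : ℝ) ^ (1 / 3 : ℝ) := by
        field_simp
      linarith
    have h2 := Real.log_le_log (by positivity) h1
    rw [Real.log_rpow hX0] at h2
    linarith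
  · apply Real.log_le_log hypos
    refine hup.trans ?_
    have : 0 ≤ c * √(X : ℝ) := by positivity
    linarith
  · have h1 : (⌊c * √(Z : ℝ)⌋₊ : ℝ) ^ η ≤ (2 * c * √(X : ℝ)) ^ η :=
      Real.rpow_le_rpow hypos.le hup hη0.le
    have h2 : (2 * c * √(X : ℝ)) ^ η = (2 * c) ^ η * (X : ℝ) ^ (η / 2) := by
      rw [Real.mul_rpow (by positivity) hs0.le, Real.sqrt_eq_rpow, ← Real.rpow_mul hX0.le]
      congr 2
      ring
    rw [h2] at h1
    linarith
  · have hη'0 : 0 < η' := by linarith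
    have h1 : (c / 2 * √(X : ℝ)) ^ η' ≤ (⌊c * √(Z : ℝ)⌋₊ : ℝ) ^ η' :=
      Real.rpow_le_rpow hlow0.le hlow hη'0.le
    have h2 : (c / 2 * √(X : ℝ)) ^ η' = (c / 2) ^ η' * (X : ℝ) ^ (η' / 2) := by
      rw [Real.mul_rpow (by positivity) hs0.le, Real.sqrt_eq_rpow, ← Real.rpow_mul hX0.le]
      congr 2
      ring
    rw [h2] at h1
    refine le_trans ?_ h1
    have h3 : 0 < (c / 2) ^ η' := by positivity
    have h4 : (c / 2) ^ η' * (2 / (c / 2) ^ η' * (X : ℝ) ^ κ) ≤ (c / 2) ^ η' * (X : ℝ) ^ (η' / 2) :=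
      mul_le_mul_of_nonneg_left f14 h3.le
    have h5 : (c / 2) ^ η' * (2 / (c / 2) ^ η' * (X : ℝ) ^ κ) = 2 * (X : ℝ) ^ κ := by
      field_simp
    linarith

/-- the hypothesis of INJ on the starting points -/
private theorem fu1_inj (c : ℝ) (hc : 0 < c) (X H : ℕ) (hH : 1 ≤ H) (hX : 1 ≤ X)
    (hcX : 4 * c ≤ √(X : ℝ)) : ∀ N ∈ Ioc X (2 * X), ∀ N' ∈ Ioc X (2 * X), N ≤ N' →
    ((yB c X H N' : ℝ) - yB c X H N) ≤ ((N' : ℝ) - N) / 4 + H / 4 + 1 := by
  intro N hN N' hN' hNN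
  have a1 := Finset.mem_Ioc.mp hN
  have a2 := Finset.mem_Ioc.mp hN'
  set Z := ZB X H N with hZ
  set Z' := ZB X H N' with hZ'
  have b1 : Z ≤ Z' := by
    rw [hZ, hZ']
    unfold ZB
    have : (N - X - 1) / H ≤ (N' - X - 1) / H := Nat.div_le_div_right (by omega)
    have := Nat.mul_le_mul_left H this
    omega
  have b2 : N ≤ Z + H := by
    rw [hZ]
    unfold ZB
    have h4 := Nat.lt_div_mul_add (a := N - X - 1) (b := H) (by omega)
    rw [Nat.mul_comm] at h4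
    omega
  have b3 : Z' ≤ N' := by
    rw [hZ']
    unfold ZB
    have h3 := Nat.div_mul_le_self (N' - X - 1) H
    rw [Nat.mul_comm] at h3
    omega
  have b4 : X ≤ Z := by
    rw [hZ]
    unfold ZB
    omega
  have r1 : (Z : ℝ) ≤ Z' := by exact_mod_cast b1
  have r2 : (N : ℝ) ≤ Z + H := by exact_mod_cast b2
  have r3 : (Z' : ℝ) ≤ N' := by exact_mod_cast b3
  have r4 : (X : ℝ) ≤ Z := by exact_mod_cast b4
  have hX0 : (0 : ℝ) < X := by exact_mod_cast hX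
  have hs0 : 0 < √(X : ℝ) := Real.sqrt_pos.mpr hX0
  have f1 : (yB c X H N' : ℝ) ≤ c * √(Z' : ℝ) := Nat.floor_le (by positivity)
  have f2 : c * √(Z : ℝ) < yB c X H N + 1 := Nat.lt_floor_add_one _
  have hsZ : √(X : ℝ) ≤ √(Z : ℝ) := Real.sqrt_le_sqrt r4
  have hsZ' : √(Z : ℝ) ≤ √(Z' : ℝ) := Real.sqrt_le_sqrt r1
  have q1 : √(Z : ℝ) * √(Z : ℝ) = Z := Real.mul_self_sqrt (by positivity)
  have q2 : √(Z' : ℝ) * √(Z' : ℝ) = Z' := Real.mul_self_sqrt (by positivity)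
  have d1 : (√(Z' : ℝ) - √(Z : ℝ)) * √(X : ℝ) ≤ (Z' : ℝ) - Z := by
    have : (√(Z' : ℝ) - √(Z : ℝ)) * (√(Z' : ℝ) + √(Z : ℝ)) = (Z' : ℝ) - Z := by
      nlinarith
    rw [← this]
    apply mul_le_mul_of_nonneg_left _ (by linarith)
    linarith
  have d2 : 4 * (c * (√(Z' : ℝ) - √(Z : ℝ))) ≤ (Z' : ℝ) - Z := by
    refine le_trans ?_ d1
    nlinarith
  have d3 : (Z' : ℝ) - Z ≤ (N' : ℝ) - N + H := by linarith
  nlinarith

/-- Module FU1. -/
theorem hFU1 (h1 : StSup) (h2 : StCnvs) (h3 : StMnqs) (h4 : StInj) (h5 : StWinu) (h6 : StSsc) :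
    StFu1 := by
  intro c κ hc hκ hκ2 A
  obtain ⟨ε, hε0, hε1, hε2⟩ : ∃ ε : ℝ, 0 < ε ∧ 4 / 5 < 2 * κ - ε ∧ 2 * κ + ε < 1 := by
    refine ⟨min (2 * κ - 4 / 5) (1 - 2 * κ) / 2, ?_, ?_, ?_⟩
    · have : 0 < min (2 * κ - 4 / 5) (1 - 2 * κ) := lt_min (by linarith) (by linarith)
      linarith
    · have := min_le_left (2 * κ - 4 / 5) (1 - 2 * κ)
      linarith
    · have := min_le_right (2 * κ - 4 / 5) (1 - 2 * κ)
      linarith
  obtain ⟨B, y₀, hB, hSup⟩ := h1 (2 * κ - ε) (2 * κ + ε) hε1 (by linarith) hε2 (2 * A + 6)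
    (4 * A + 20)
  obtain ⟨C, hC, hS⟩ := h6
  obtain ⟨Y0, hW⟩ := h5 κ hκ hκ2 (3 * A + 4 * B + 5) (B + 2)
  obtain ⟨M, hM1, hM2, hM3, hM4, hM5, hM6⟩ : ∃ M : ℝ, 4 ≤ M ∧
      432 * 9 ^ (2 * A + 6) ≤ M ∧ 864 * (2 : ℝ) ^ (3 * A + 4 * B + 5) ≤ M ∧
      18 * C ≤ M ∧ (2 : ℝ) ^ (B + 2) ≤ M ∧ 2 * (3 : ℝ) ^ (B + 1) ≤ M := by
    refine ⟨4 + 432 * 9 ^ (2 * A + 6) + 864 * (2 : ℝ) ^ (3 * A + 4 * B + 5) +
      18 * C + (2 : ℝ) ^ (B + 2) + 2 * (3 : ℝ) ^ (B + 1), ?_, ?_, ?_, ?_, ?_, ?_⟩ <;>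
    · have h1 : 0 ≤ 432 * (9 : ℝ) ^ (2 * A + 6) := by positivity
      have h2 : 0 ≤ 864 * (2 : ℝ) ^ (3 * A + 4 * B + 5) := by positivity
      have h3 : 0 ≤ 18 * C := by positivity
      have h4 : 0 ≤ (2 : ℝ) ^ (B + 2) := by positivity
      have h5 : 0 ≤ 2 * (3 : ℝ) ^ (B + 1) := by positivity
      linarith
  have e1 : ∀ᶠ X : ℕ in Filter.atTop, M ≤ Real.log X :=
    (Real.tendsto_log_atTop.comp tendsto_natCast_atTop_atTop).eventually_ge_atTop M
  have e2 := fu1_size c κ hc hκ hκ2 (2 * κ - ε) (2 * κ + ε) (by linarith) (by linarith)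
    (by linarith) y₀
  have e3 : ∀ᶠ X : ℕ in Filter.atTop, 4 * Y0 + 16 ≤ X := Filter.eventually_ge_atTop _
  obtain ⟨X0, hall⟩ := Filter.eventually_atTop.mp (e1.and (e2.and e3))
  refine ⟨X0, fun X hX H h hHd hh1 hh2 => ?_⟩
  obtain ⟨hL, ⟨hX16, hV12, hVX, hVw, hX4, hcX, hZ⟩, hX1⟩ := hall X hX
  obtain ⟨V, hVd⟩ : ∃ V : ℝ, V = (X : ℝ) ^ (1 / 2 + κ - dl κ) := ⟨_, rfl⟩
  rw [← hVd] at hHd hV12 hVX hVw
  obtain ⟨P, hPd⟩ : ∃ P : ℝ, P = (X : ℝ) ^ κ := ⟨_, rfl⟩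
  rw [← hPd] at hh1 hh2 hVw hX4 hZ
  obtain ⟨L, hLd⟩ : ∃ L : ℝ, L = Real.log X := ⟨_, rfl⟩
  rw [← hLd] at hL hZ ⊢
  have hL4 : 4 ≤ L := hM1.trans hL
  have hL0 : 0 < L := by linarith
  have hX0 : (0 : ℝ) < X := by exact_mod_cast (by omega : 0 < X)
  have hP0 : 0 < P := by rw [hPd]; positivity
  have hh0 : (0 : ℝ) < h := by linarith
  -- `H`
  have hVH : V ≤ H := by rw [hHd]; exact Nat.le_ceil _
  have hHV : (H : ℝ) < V + 1 := by rw [hHd]; exact Nat.ceil_lt_add_one (by linarith)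
  have hH12 : 12 ≤ H := by
    have : (12 : ℝ) ≤ H := hV12.trans hVH
    exact_mod_cast this
  have hHX : H ≤ X := by
    have : (H : ℝ) ≤ X := by linarith
    exact_mod_cast this
  have hblk : ∀ i ≤ X / H, X ≤ X + H * i ∧ X + H * i ≤ 2 * X := by
    intro i hi
    have h1 : H * i ≤ X := by
      calc H * i ≤ H * (X / H) := Nat.mul_le_mul_left _ hi
        _ = X / H * H := Nat.mul_comm _ _
        _ ≤ X := Nat.div_mul_le_self X H
    omega
  have hyi : ∀ i ≤ X / H, y₀ ≤ yi c X H i ∧ (yi c X H i : ℝ) ≤ 2 * c * √(X : ℝ) ∧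
      L / 3 ≤ Real.log (yi c X H i) ∧ Real.log (yi c X H i) ≤ L ∧
      (yi c X H i : ℝ) ^ (2 * κ - ε) ≤ P / 2 ∧ 2 * P ≤ (yi c X H i : ℝ) ^ (2 * κ + ε) := by
    intro i hi
    exact hZ (X + H * i) (hblk i hi).1 (hblk i hi).2
  have hyB : ∀ N ∈ Ioc X (2 * X), (N - X - 1) / H ≤ X / H := by
    intro N hN
    have hN' := Finset.mem_Ioc.mp hN
    exact Nat.div_le_div_right (by omega)
  have hw1 : ∀ i ≤ X / H, yi c X H i + h + 1 ≤ H := by
    intro i hi
    have h7 := (hyi i hi).2.1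
    have h8 : ((yi c X H i + h + 1 : ℕ) : ℝ) ≤ H := by
      push_cast
      linarith
    exact_mod_cast h8
  have hw2 : ∀ N ∈ Ioc X (2 * X), yB c X H N + h + 1 ≤ X / 2 := by
    intro N hN
    have h7 := (hyi _ (hyB N hN)).2.1
    rw [← fu1_yB] at h7
    have h8 : (((yB c X H N + h + 1) * 4 : ℕ) : ℝ) ≤ X := by
      push_cast
      linarith
    have h9 : (yB c X H N + h + 1) * 4 ≤ X := by exact_mod_cast h8
    omega
  -- `Q`
  obtain ⟨Q, hQd⟩ : ∃ Q : ℕ, Q = ⌈L ^ B⌉₊ := ⟨_, rfl⟩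
  have hQ1 : L ^ B ≤ Q := by rw [hQd]; exact Nat.le_ceil _
  have hLB1 : (1 : ℝ) ≤ L ^ B := one_le_pow₀ (by linarith)
  have hQ3 : (Q : ℝ) ≤ 2 * L ^ B := by
    have h7 : (Q : ℝ) < L ^ B + 1 := by
      rw [hQd]; exact Nat.ceil_lt_add_one (by positivity)
    linarith
  have hQL : (Q : ℝ) ≤ L ^ (B + 1) := by
    refine hQ3.trans ?_
    exact fu1_pow _ L _ _ (by linarith) (by linarith) le_rfl
  have hQl : (Q : ℝ) ≤ (L / 3) ^ (B + 1) := by
    refine hQ3.trans ?_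
    rw [div_pow, le_div_iff₀ (by positivity)]
    calc 2 * L ^ B * 3 ^ (B + 1) = (2 * 3 ^ (B + 1)) * L ^ B := by ring
      _ ≤ L ^ (B + 1) := fu1_pow _ L _ _ (by linarith) (hM6.trans hL) le_rfl
  have hQ0 : 1 ≤ Q := by exact_mod_cast hLB1.trans hQ1
  -- the three parts
  obtain ⟨S1, hS1⟩ : ∃ S1 : ℕ → ℝ, S1 = fun N =>
      ∑ n ∈ Ioc (yB c X H N) (yB c X H N + h), (th n - LQ Q n) * th (N - n) := ⟨_, rfl⟩
  obtain ⟨S2, hS2⟩ : ∃ S2 : ℕ → ℝ, S2 = fun N =>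
      ∑ n ∈ Ioc (yB c X H N) (yB c X H N + h), LQ Q n * th (N - n) - h * SQ Q N := ⟨_, rfl⟩
  obtain ⟨S3, hS3⟩ : ∃ S3 : ℕ → ℝ, S3 = fun N => (h : ℝ) * (SQ Q N - SS N) := ⟨_, rfl⟩
  obtain ⟨T, hT⟩ : ∃ T : ℝ, T = h / (3 * L ^ A) := ⟨_, rfl⟩
  have hT0 : 0 < T := by rw [hT]; positivity
  have hTX : (X : ℝ) / (3 * L ^ A) * T ^ 2 = (h : ℝ) ^ 2 * X / (27 * L ^ (3 * A)) := by
    have : L ^ (3 * A) = (L ^ A) ^ 3 := by rw [← pow_mul]; congr 1; ring
    rw [this, hT]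
    field_simp
    ring
  -- part 1
  have c1 : (((Ioc X (2 * X)).filter (fun N => T < |S1 N|)).card : ℝ) ≤ X / (3 * L ^ A) := by
    have g1 := fu1_markov2 (Ioc X (2 * X)) S1 T hT0
    have hlog : Real.log (3 * X) ≤ 2 * L := by
      rw [Real.log_mul (by norm_num) (by positivity), ← hLd]
      have : Real.log 3 ≤ 3 - 1 := Real.log_le_sub_one_of_pos (by norm_num)
      linarith
    have g2 : ∑ N ∈ Ioc X (2 * X), S1 N ^ 2 ≤
        ((h : ℝ) / (L / 3) ^ (2 * A + 6)) ^ 2 * (4 * X * (2 * L) ^ 2) := by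
      rw [hS1]
      refine fu1_p1 h2 c (fun n => th n - LQ Q n) X H h _ (2 * L) (by omega) hHX hw1 ?_ hlog
      intro i hi α
      obtain ⟨k1, k2, k3, k4, k5, k6⟩ := hyi i hi
      have hl0 : 0 < L / 3 := by linarith
      have g3 := hSup (yi c X H i) h Q k1 (k5.trans hh1) (hh2.trans k6)
        ((pow_le_pow_left₀ (by linarith) k4 _).trans hQ1)
        (hQl.trans (pow_le_pow_left₀ hl0.le k3 _)) α
      refine g3.trans ?_
      gcongr
    have g3 : ((h : ℝ) / (L / 3) ^ (2 * A + 6)) ^ 2 * (4 * X * (2 * L) ^ 2) ≤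
        X / (3 * L ^ A) * T ^ 2 := by
      rw [hTX]
      have g4 : 432 * 9 ^ (2 * A + 6) * L ^ (3 * A + 2) ≤ L ^ (4 * A + 12) :=
        fu1_pow _ L _ _ (by linarith) (hM2.trans hL) (by omega)
      have g5 : ((h : ℝ) / (L / 3) ^ (2 * A + 6)) ^ 2 * (4 * X * (2 * L) ^ 2) =
          (h : ℝ) ^ 2 * X * (16 * 9 ^ (2 * A + 6) * L ^ 2) / L ^ (4 * A + 12) := by
        have g6 : (9 : ℝ) ^ (2 * A + 6) = (3 ^ (2 * A + 6)) ^ 2 := by
          rw [← pow_mul, mul_comm (2 * A + 6) 2, pow_mul]; norm_num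
        have g7 : L ^ (4 * A + 12) = (L ^ (2 * A + 6)) ^ 2 := by
          rw [← pow_mul]; congr 1; ring
        rw [g6, g7, div_pow, div_pow]
        field_simp
        ring
      rw [g5, div_le_div_iff₀ (by positivity) (by positivity)]
      calc (h : ℝ) ^ 2 * X * (16 * 9 ^ (2 * A + 6) * L ^ 2) * (27 * L ^ (3 * A))
          = (h : ℝ) ^ 2 * X * (432 * 9 ^ (2 * A + 6) * L ^ (3 * A + 2)) := by ring
        _ ≤ (h : ℝ) ^ 2 * X * L ^ (4 * A + 12) := by gcongr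
    have g7 := g1.trans (g2.trans g3)
    exact le_of_mul_le_mul_right g7 (by positivity)
  -- part 2
  have c2 : (((Ioc X (2 * X)).filter (fun N => T < |S2 N|)).card : ℝ) ≤ X / (3 * L ^ A) := by
    have g1 := fu1_markov2 (Ioc X (2 * X)) S2 T hT0
    have hwin : ∀ (q u : ℕ), 1 ≤ q → q ≤ Q → ∀ Y, X ≤ 4 * Y → Y ≤ X →
        ∑ m ∈ Ioc Y (2 * Y), dsc m h q u ^ 2 ≤
          X * P ^ 2 * 2 ^ (3 * A + 4 * B + 5) / L ^ (3 * A + 4 * B + 5) := by
      intro q u hq hqQ Y hY1 hY2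
      have hY1' : (X : ℝ) ≤ 4 * Y := by exact_mod_cast hY1
      have hY2' : (Y : ℝ) ≤ X := by exact_mod_cast hY2
      have hYpos : (0 : ℝ) < Y := by linarith
      have hlY : L / 2 ≤ Real.log Y := by
        have k1 : L - Real.log 4 ≤ Real.log Y := by
          rw [hLd, ← Real.log_div (by positivity) (by norm_num)]
          exact Real.log_le_log (by positivity) (by linarith)
        have k2 : Real.log 4 ≤ 2 := by
          have : (4 : ℝ) = 2 ^ 2 := by norm_num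
          rw [this, Real.log_pow]
          have := Real.log_two_lt_d9
          push_cast
          linarith
        linarith
      have g3 : (q : ℝ) ≤ Real.log Y ^ (B + 2) := by
        calc (q : ℝ) ≤ Q := by exact_mod_cast hqQ
          _ ≤ L ^ (B + 1) := hQL
          _ ≤ (L / 2) ^ (B + 2) := by
              rw [div_pow, le_div_iff₀ (by positivity), mul_comm]
              exact fu1_pow _ L _ _ (by linarith) (hM5.trans hL) (by omega)
          _ ≤ Real.log Y ^ (B + 2) := pow_le_pow_left₀ (by linarith) hlY _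
      have g4 : (h : ℝ) ≤ 4 * (Y : ℝ) ^ κ := by
        have k1 : ((X : ℝ) / 4) ^ κ ≤ (Y : ℝ) ^ κ :=
          Real.rpow_le_rpow (by positivity) (by linarith) (by linarith)
        have k2 : ((X : ℝ) / 4) ^ κ = P / 4 ^ κ := by
          rw [Real.div_rpow hX0.le (by norm_num), hPd]
        have k3 : (4 : ℝ) ^ κ ≤ 2 := by
          calc (4 : ℝ) ^ κ ≤ (4 : ℝ) ^ (1 / 2 : ℝ) :=
                Real.rpow_le_rpow_of_exponent_le (by norm_num) (by linarith)
            _ = 2 := by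
                rw [← Real.sqrt_eq_rpow]
                rw [show (4 : ℝ) = 2 ^ 2 by norm_num]
                exact Real.sqrt_sq (by norm_num)
        have k4 : P / 2 ≤ P / 4 ^ κ := by
          apply div_le_div_of_nonneg_left hP0.le (by positivity) k3
        rw [k2] at k1
        linarith
      have g5 := hW Y (by omega) q u h hq g3 g4
      refine g5.trans ?_
      have hlY0 : 0 < Real.log Y := by linarith only [hlY, hL0]
      rw [div_le_div_iff₀ (pow_pos hlY0 _) (by positivity)]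
      have g7 : L ^ (3 * A + 4 * B + 5) ≤
          2 ^ (3 * A + 4 * B + 5) * Real.log Y ^ (3 * A + 4 * B + 5) := by
        rw [← mul_pow]
        exact pow_le_pow_left₀ hL0.le (by linarith) _
      have g8 : (Y : ℝ) ^ κ ≤ P := by
        rw [hPd]
        exact Real.rpow_le_rpow hYpos.le hY2' (by linarith)
      calc (Y : ℝ) * ((Y : ℝ) ^ κ) ^ 2 * L ^ (3 * A + 4 * B + 5)
          ≤ (X : ℝ) * P ^ 2 * (2 ^ (3 * A + 4 * B + 5) * Real.log Y ^ (3 * A + 4 * B + 5)) := by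
            gcongr
        _ = (X : ℝ) * P ^ 2 * 2 ^ (3 * A + 4 * B + 5) * Real.log Y ^ (3 * A + 4 * B + 5) := by ring
    have hE : ∀ q u : ℕ, 1 ≤ q → q ≤ Q →
        ∑ N ∈ Ioc X (2 * X), dsc (N - (yB c X H N + h) - 1) h q u ^ 2 ≤
        8 * (X * P ^ 2 * 2 ^ (3 * A + 4 * B + 5) / L ^ (3 * A + 4 * B + 5)) := by
      intro q u hq hqQ
      have g2 := h4 c X H h (fun m => dsc m h q u ^ 2) hc hH12 (fun _ => sq_nonneg _) hw2
        (fu1_inj c hc X H (by omega) (by omega) hcX)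
      have g3 := fu1_cover (fun m => dsc m h q u ^ 2) (fun _ => sq_nonneg _) X hX16 _
        (hwin q u hq hqQ)
      linarith
    have g2 := fu1_p2 X Q (fun N q u => dsc (N - (yB c X H N + h) - 1) h q u) _ hE (by positivity)
    have g3 : ∑ N ∈ Ioc X (2 * X), S2 N ^ 2 ≤
        ∑ N ∈ Ioc X (2 * X), (∑ q ∈ Icc 1 Q, ∑ u ∈ range q,
          |dsc (N - (yB c X H N + h) - 1) h q u|) ^ 2 := by
      apply Finset.sum_le_sum
      intro N hN
      have hN' := Finset.mem_Ioc.mp hN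
      have k1 := hw2 N hN
      have g4 := h3 Q N (yB c X H N) h (by omega)
      rw [hS2, ← sq_abs]
      exact pow_le_pow_left₀ (abs_nonneg _) g4 2
    have g4 : (Q : ℝ) ^ 2 * ((Q : ℝ) ^ 2 *
        (8 * (X * P ^ 2 * 2 ^ (3 * A + 4 * B + 5) / L ^ (3 * A + 4 * B + 5)))) ≤
        X / (3 * L ^ A) * T ^ 2 := by
      rw [hTX]
      have g5 : 864 * (2 : ℝ) ^ (3 * A + 4 * B + 5) * L ^ (3 * A + 4 * B + 4) ≤
          L ^ (3 * A + 4 * B + 5) :=
        fu1_pow _ L _ _ (by linarith) (hM3.trans hL) (by omega)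
      have g6 : (Q : ℝ) ^ 4 ≤ L ^ (4 * B + 4) := by
        calc (Q : ℝ) ^ 4 ≤ (L ^ (B + 1)) ^ 4 := by gcongr
          _ = L ^ (4 * B + 4) := by rw [← pow_mul]; congr 1; ring
      have g8 : P ^ 2 ≤ 4 * (h : ℝ) ^ 2 := by
        have : P ≤ 2 * h := by linarith
        calc P ^ 2 ≤ (2 * (h : ℝ)) ^ 2 := by gcongr
          _ = 4 * (h : ℝ) ^ 2 := by ring
      have g12 : (Q : ℝ) ^ 2 * ((Q : ℝ) ^ 2 *
          (8 * (X * P ^ 2 * 2 ^ (3 * A + 4 * B + 5) / L ^ (3 * A + 4 * B + 5)))) =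
          ((Q : ℝ) ^ 4 * (8 * X * P ^ 2 * 2 ^ (3 * A + 4 * B + 5))) / L ^ (3 * A + 4 * B + 5) := by
        ring
      rw [g12, div_le_div_iff₀ (by positivity) (by positivity)]
      calc (Q : ℝ) ^ 4 * (8 * X * P ^ 2 * 2 ^ (3 * A + 4 * B + 5)) * (27 * L ^ (3 * A))
          ≤ L ^ (4 * B + 4) * (8 * X * (4 * (h : ℝ) ^ 2) * 2 ^ (3 * A + 4 * B + 5)) *
            (27 * L ^ (3 * A)) := by
            gcongr
        _ = (h : ℝ) ^ 2 * X * (864 * (2 : ℝ) ^ (3 * A + 4 * B + 5) * L ^ (3 * A + 4 * B + 4)) := by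
            ring
        _ ≤ (h : ℝ) ^ 2 * X * L ^ (3 * A + 4 * B + 5) := by gcongr
    have g7 := g1.trans (g3.trans (g2.trans g4))
    exact le_of_mul_le_mul_right g7 (by positivity)
  -- part 3
  have c3 : ((((Ioc X (2 * X)).filter (fun N => Even N)).filter (fun N => T < |S3 N|)).card : ℝ) ≤
      X / (3 * L ^ A) := by
    have g1 := fu1_markov1 ((Ioc X (2 * X)).filter (fun N => Even N)) S3 T
    have g2 : ∑ N ∈ (Ioc X (2 * X)).filter (fun N => Even N), |S3 N| ≤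
        h * (C * (2 * X) / √(Q : ℝ)) := by
      calc ∑ N ∈ (Ioc X (2 * X)).filter (fun N => Even N), |S3 N|
          = ∑ N ∈ (Ioc X (2 * X)).filter (fun N => Even N), (h : ℝ) * |SS N - SQ Q N| := by
            apply Finset.sum_congr rfl
            intro N _
            rw [hS3]
            simp only
            rw [abs_mul, abs_sub_comm, abs_of_nonneg (Nat.cast_nonneg h : (0 : ℝ) ≤ h)]
        _ = (h : ℝ) * ∑ N ∈ (Ioc X (2 * X)).filter (fun N => Even N), |SS N - SQ Q N| := by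
            rw [Finset.mul_sum]
        _ ≤ h * ∑ N ∈ (Icc 1 (2 * X)).filter (fun N => Even N), |SS N - SQ Q N| := by
            apply mul_le_mul_of_nonneg_left _ hh0.le
            apply Finset.sum_le_sum_of_subset_of_nonneg
            · intro N hN
              have hN1 := Finset.mem_filter.mp hN
              have hN2 := Finset.mem_Ioc.mp hN1.1
              exact Finset.mem_filter.mpr ⟨Finset.mem_Icc.mpr ⟨by omega, hN2.2⟩, hN1.2⟩
            · intro _ _ _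
              exact abs_nonneg _
        _ ≤ h * (C * (2 * X) / √(Q : ℝ)) := by
            have g3 := hS Q (2 * X) hQ0
            push_cast at g3
            gcongr
    have g3 : L ^ (2 * A + 10) ≤ √(Q : ℝ) := by
      apply Real.le_sqrt_of_sq_le
      calc (L ^ (2 * A + 10)) ^ 2 = L ^ (4 * A + 20) := by
            rw [← pow_mul]; congr 1; ring
        _ ≤ L ^ B := pow_le_pow_right₀ (by linarith) hB
        _ ≤ Q := hQ1
    have g4 : h * (C * (2 * X) / √(Q : ℝ)) ≤ X / (3 * L ^ A) * T := by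
      calc h * (C * (2 * X) / √(Q : ℝ)) ≤ h * (C * (2 * X) / L ^ (2 * A + 10)) := by
            gcongr
        _ ≤ X / (3 * L ^ A) * T := by
            rw [hT]
            have g5 : 18 * C * L ^ (2 * A) ≤ L ^ (2 * A + 10) :=
              fu1_pow _ L _ _ (by linarith) (hM4.trans hL) (by omega)
            have g6 : h * (C * (2 * X) / L ^ (2 * A + 10)) =
                (2 * C * h * X) / L ^ (2 * A + 10) := by
              field_simp
            have g7 : (X : ℝ) / (3 * L ^ A) * (h / (3 * L ^ A)) = h * X / (9 * L ^ (2 * A)) := by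
              have : L ^ (2 * A) = (L ^ A) ^ 2 := by rw [← pow_mul]; congr 1; ring
              rw [this]
              field_simp
              ring
            rw [g6, g7, div_le_div_iff₀ (by positivity) (by positivity)]
            calc 2 * C * h * X * (9 * L ^ (2 * A))
                = h * X * (18 * C * L ^ (2 * A)) := by ring
              _ ≤ h * X * L ^ (2 * A + 10) := by gcongr
    have g7 := g1.trans (g2.trans g4)
    exact le_of_mul_le_mul_right g7 hT0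
  -- union
  have hsub : (Ioc X (2 * X)).filter (fun N => Even N ∧ (h : ℝ) / L ^ A <
      |∑ n ∈ (Ioc (yB c X H N) (yB c X H N + h)).filter (fun n => n < N), th n * th (N - n) -
        SS N * h|) ⊆
      ((Ioc X (2 * X)).filter (fun N => T < |S1 N|) ∪
        (Ioc X (2 * X)).filter (fun N => T < |S2 N|)) ∪
        ((Ioc X (2 * X)).filter (fun N => Even N)).filter (fun N => T < |S3 N|) := by
    intro N hN
    obtain ⟨hN1, hN2, hN3⟩ := Finset.mem_filter.mp hN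
    have hN' := Finset.mem_Ioc.mp hN1
    have k1 := hw2 N hN1
    have g1 : (Ioc (yB c X H N) (yB c X H N + h)).filter (fun n => n < N) =
        Ioc (yB c X H N) (yB c X H N + h) := by
      apply Finset.filter_true_of_mem
      intro n hn
      have hn' := Finset.mem_Ioc.mp hn
      omega
    have g2 : ∑ n ∈ (Ioc (yB c X H N) (yB c X H N + h)).filter (fun n => n < N),
        th n * th (N - n) - SS N * h = S1 N + S2 N + S3 N := by
      rw [g1, hS1, hS2, hS3]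
      simp only [sub_mul, Finset.sum_sub_distrib]
      ring
    rw [g2] at hN3
    have g3 : (h : ℝ) / L ^ A = 3 * T := by
      rw [hT]
      field_simp
    rw [g3] at hN3
    simp only [Finset.mem_union, Finset.mem_filter]
    by_contra hcon
    push Not at hcon
    obtain ⟨⟨g5, g6⟩, g7⟩ := hcon
    have g5' := g5 hN1
    have g6' := g6 hN1
    have g7' := g7 ⟨hN1, hN2⟩
    have g8 : |S1 N + S2 N + S3 N| ≤ |S1 N| + |S2 N| + |S3 N| := abs_add_three _ _ _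
    linarith
  have hcard := Finset.card_le_card hsub
  have hcard2 := hcard.trans (Finset.card_union_le _ _)
  have hcard3 := Finset.card_union_le ((Ioc X (2 * X)).filter (fun N => T < |S1 N|))
    ((Ioc X (2 * X)).filter (fun N => T < |S2 N|))
  have hcard4 : (((Ioc X (2 * X)).filter (fun N => Even N ∧ (h : ℝ) / L ^ A <
      |∑ n ∈ (Ioc (yB c X H N) (yB c X H N + h)).filter (fun n => n < N), th n * th (N - n) -
        SS N * h|)).card : ℝ) ≤
      (((Ioc X (2 * X)).filter (fun N => T < |S1 N|)).card : ℝ) +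
      (((Ioc X (2 * X)).filter (fun N => T < |S2 N|)).card : ℝ) +
      ((((Ioc X (2 * X)).filter (fun N => Even N)).filter (fun N => T < |S3 N|)).card : ℝ) := by
    exact_mod_cast hcard2.trans (Nat.add_le_add_right hcard3 _)
  refine hcard4.trans ?_
  have hfin : (X : ℝ) / (3 * L ^ A) + X / (3 * L ^ A) + X / (3 * L ^ A) = X / L ^ A := by
    field_simp
    ring
  linarith

end Pool.Agent.Helper75.SU
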